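import Pool.Agent.N414.LR.Stm

/-!
# Project LR, leaf RE1: the representation `ρ ⊗ conj ρ`

By helper426.
-/

set_option autoImplicit false

namespace Pool.Agent.N414.LR.RE1

open Pool.Agent.H494R3.GT Pool.Agent.N557.QW Pool.Agent.N169.QWP

noncomputable section

variable {P : Type}

/-- the pairing of `T x (C y) (dl (p, q))` with the kernel of `K` -/
theorem claim {T : Op P → Op P → Op (P × P)} {C : Op P → Op P}
    (Te : ∀ x y p q p' q', inner ℂ (dl (p', q')) (T x y (dl (p, q))) =
      inner ℂ (dl p') (x (dl p)) * inner ℂ (dl q') (y (dl q)))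
    (Ce : ∀ x p q, inner ℂ (dl q) (C x (dl p)) = (starRingEnd ℂ) (inner ℂ (dl q) (x (dl p))))
    {k : L2 (P × P)} {K : Op P} (hk : ∀ p q, inner ℂ (dl p) (K (dl q)) = k (p, q))
    (x y : Op P) (p q : P) :
    inner ℂ (T x (C y) (dl (p, q))) k = inner ℂ (x (dl p)) (K (y (dl q))) := by
  have hco : ∀ p' q', (T x (C y) (dl (p, q))) (p', q') =
      (x (dl p)) p' * (starRingEnd ℂ) ((y (dl q)) q') := by
    intro p' q'
    rw [← inner_dl, Te, Ce, inner_dl, inner_dl]
  have hs := lp.summable_inner (𝕜 := ℂ) (T x (C y) (dl (p, q))) k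
  rw [lp.inner_eq_tsum, lp.inner_eq_tsum, hs.tsum_prod]
  refine tsum_congr fun p' => ?_
  rw [mul_coeff, RCLike.inner_apply, ← tsum_mul_right]
  refine tsum_congr fun q' => ?_
  rw [RCLike.inner_apply, hco, ← hk, inner_dl, map_mul, starRingEnd_self_apply]
  ring

theorem main : Pool.Agent.N414.LR.S_TEN → Pool.Agent.N414.LR.S_BAR →
    Pool.Agent.N414.LR.S_RE1 := by
  intro hT hC G P _ ρ p₀
  obtain ⟨T, T1, Tm, Ts, Te⟩ := hT P P
  obtain ⟨C, C1, Cm, Cs, Ce⟩ := hC P
  have hst : ∀ x : Op P, star (T x (C x)) = T (star x) (C (star x)) := fun x => by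
    rw [Ts, Cs]
  have hmul : ∀ x y : Op P, T (x * y) (C (x * y)) = T x (C x) * T y (C y) := fun x y => by
    rw [Cm, Tm]
  have hone : T 1 (C 1) = 1 := by rw [C1, T1]
  have hun : ∀ g, T (ρ g : Op P) (C (ρ g : Op P)) ∈ unitary (Op (P × P)) := by
    intro g
    rw [Unitary.mem_iff]
    constructor
    · rw [hst, ← hmul, Unitary.star_mul_self_of_mem (ρ g).2, hone]
    · rw [hst, ← hmul, Unitary.mul_star_self_of_mem (ρ g).2, hone]
  let σ : G →* unitary (Op (P × P)) :=
    { toFun := fun g => ⟨T (ρ g : Op P) (C (ρ g : Op P)), hun g⟩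
      map_one' := by
        apply Subtype.ext
        change T (ρ 1 : Op P) (C (ρ 1 : Op P)) = 1
        rw [map_one]
        exact hone
      map_mul' := fun g h => by
        apply Subtype.ext
        change T (ρ (g * h) : Op P) (C (ρ (g * h) : Op P)) =
          T (ρ g : Op P) (C (ρ g : Op P)) * T (ρ h : Op P) (C (ρ h : Op P))
        rw [map_mul]
        exact hmul _ _ }
  have hσ : ∀ g, (σ g : Op (P × P)) = T (ρ g : Op P) (C (ρ g : Op P)) := fun g => rfl
  refine ⟨σ, ?_, ?_⟩
  · intro g
    rw [hσ, Te, Ce, RCLike.mul_conj]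
    norm_cast
  · intro k K hk g hg
    set u : Op P := (ρ g : Op P) with hu
    have h1 : K = u * K * star u := by
      apply op_ext_inner
      intro p q
      rw [hk, ← inner_dl (p, q) k]
      have h2 : inner ℂ (dl (p, q)) k = inner ℂ (T (star u) (C (star u)) (dl (p, q))) k := by
        rw [← hst, ContinuousLinearMap.star_eq_adjoint, ContinuousLinearMap.adjoint_inner_left,
          ← hσ, hg]
      rw [h2, claim Te Ce hk, ContinuousLinearMap.star_eq_adjoint,
        ContinuousLinearMap.adjoint_inner_left]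
      rfl
    have h3 : star u * u = 1 := Unitary.star_mul_self_of_mem (ρ g).2
    calc u * K = u * K * (star u * u) := by rw [h3, mul_one]
      _ = (u * K * star u) * u := by simp only [mul_assoc]
      _ = K * u := by rw [← h1]

end

end Pool.Agent.N414.LR.RE1
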